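import Pool.Agent.Hhelper93.CMono.Main

/-!
# Graphs drawn with angularly monotone edges, without `t` pairwise disjoint edges

Let `G` be drawn in the plane such that every edge is an arc which is seen from a point `O` under
the angles `lo ≤ s ≤ hi`, each once, `hi - lo < 2π`, and such that two edges with a common end have
no other common point.  If no `t` edges are pairwise disjoint then `G` has at most
`2 (t - 1)^4 n (K + 1)` edges, for every `K` such that `2^K ≥ n` or all spans `hi - lo` are less
than `2π (1 - 2^(-K))`.

Proof.  For the edges which avoid one ray from `O` the four partial orders of Pach and Törőcsik work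
(in every class the disjoint edges are comparable, and a family in which any two edges meet has at
most `2 m` edges on `m` vertices).  The gap of an edge is the open angle not seen by it.  At level
`k` the turn is divided into `2^k` sectors, and an edge of level `k` has its gap in a sector of
level `k` and avoids the middle ray of this sector; so all levels have at most `2 (t - 1)^4 n`
edges.
-/

set_option autoImplicit false

namespace Pool.Agent.Results.MP_5dd651_co.CMonotone

open Pool.Agent.CMono

theorem result {V : Type} [Fintype V] (G : SimpleGraph V) (O : ℂ) (pos : V → ℂ)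
    (arc : Sym2 V → Set ℂ) (lo hi : Sym2 V → ℝ) (D : CMonotone G O pos arc lo hi) (t : ℕ)
    (ht : ∀ T : Finset (Sym2 V), (T : Set (Sym2 V)) ⊆ G.edgeSet → T.card = t →
      ∃ e ∈ T, ∃ f ∈ T, e ≠ f ∧ ¬ Disjoint (arc e) (arc f))
    (K : ℕ) (hK : Fintype.card V ≤ 2 ^ K ∨
      ∀ e ∈ G.edgeSet, hi e - lo e < 2 * Real.pi - 2 * Real.pi / 2 ^ K) :
    G.edgeSet.ncard ≤ 2 * (t - 1) ^ 4 * Fintype.card V * (K + 1) :=
  main_bound D t ht K hK

end Pool.Agent.Results.MP_5dd651_co.CMonotone
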