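import Pool.Agent.Hhelper93.KCyl.Main

/-!
# Simple drawings between two circles: at most `(t - 1) (n - 1)` edges

Let `G` have a simple drawing in which every edge joins the circle `|z| = 1` to the circle
`|z| = R` and has exactly one point on every circle between them.  If no `t` edges are pairwise
disjoint then the edges can be coloured with `t - 1` colours such that any two edges of one colour
meet, and every colour has at most `n - 1` edges.

Proof.  In the universal cover of the annulus every edge `e` has the lifts
`(x e + 2π k, y e + 2π k)`, where `x e`, `y e` are the angles of its ends.  A closed chain of one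
period in the strict product order consists of pairwise disjoint edges, so it has at most `t - 1`
members.  A closed chain of `K` periods splits into one of one period and one of `K - 1` periods
(`exists_split`), so it has at most `(t - 1) K` members.  So there is a potential which divides the
edges into `t - 1` classes of pairwise incomparable lifts (`potential`), and every class has at most
`n - 1` members (`classes`).
-/

set_option autoImplicit false

namespace Pool.Agent.Results.MP_5dd651_co.CylinderEdges

open Pool.Agent.KCyl

theorem result {V : Type} [Fintype V] (G : SimpleGraph V) (R : ℝ) (pos : V → ℂ)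
    (inn out : Sym2 V → V) (ang : Sym2 V → ℝ → ℝ) (D : Cyl G R pos inn out ang) (t : ℕ)
    (ht : ∀ T : Finset (Sym2 V), (T : Set (Sym2 V)) ⊆ G.edgeSet → T.card = t →
      ∃ e ∈ T, ∃ f ∈ T, e ≠ f ∧ ¬ Disjoint (arc R (ang e)) (arc R (ang f))) :
    (∃ c : Sym2 V → ℕ, (∀ e ∈ G.edgeSet, c e < t - 1) ∧
      (∀ e ∈ G.edgeSet, ∀ f ∈ G.edgeSet, c e = c f →
        ¬ Disjoint (arc R (ang e)) (arc R (ang f))) ∧
      ∀ i, {e ∈ G.edgeSet | c e = i}.ncard ≤ Fintype.card V - 1) ∧
    G.edgeSet.ncard ≤ (t - 1) * (Fintype.card V - 1) := by
  obtain ⟨c, h1, h2, h3⟩ := D.bound t ht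
  exact ⟨⟨c, h1, h2, h3⟩, ncard_le_of_colouring (Set.toFinite _) c _ _ h1 h3⟩

end Pool.Agent.Results.MP_5dd651_co.CylinderEdges
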