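import Pool.Agent.Hhelper93.CLow3.Count

/-!
# Many edges, any two with at most two common points, no three pairwise disjoint

The vertices are `inl a` and `inr b`, `0 ≤ a, b < n = 2^(K+1)`, in the angular order
`inr 0, inl 0, inr 1, inl 1, ...`; the edges join `inl a` and `inr b` with `b = a + 2^k` where `a`
has the binary digit `0` at the place `k`, and the edge is drawn the long way around, its gap is
the angle from `inl a` to `inr b`.  Behind its right vertex an edge is low and ordered by `(b, a)`,
before its left vertex it is high and ordered by `(a, b)`.  In the sector before `inr 0` the order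
of the edges is changed from `(b, a)` to `(a, b)` in `2 (K + 2)` steps: at the step `i` of the first
half the edges are ordered by the block `b / 2^i`, inside a block first the edges which come from
another block, by decreasing `b`, then the edges inside the block, by their middles
`2^k (b / 2^k)` (inorder of the binary tree) and decreasing `a`; in the second half by the block
`a / 2^i`, inside a block first the edges inside the block, by their middles and decreasing `a`,
then the edges to another block, by decreasing `a`.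
Any two edges change their order at most twice, edges with a common end never.  Two edges `(a, b)`
and `(c, d)`, `a < c`, of the levels `k` and `l` which do not cross satisfy `c < b < d`,
`b / 2^l = c / 2^l` and `c / 2^k = a / 2^k + 1`, so no three edges are pairwise disjoint.
The heights are powers of `2` and of a very large number in turn, so that no three edges meet in one
point.
-/

set_option autoImplicit false

namespace Pool.Agent.Results.MP_5dd651_co.LogSharp

open Pool.Agent.CMono Pool.Agent.CLow Pool.Agent.CLow3

theorem result (K : ℕ) : ∃ (V : Type) (_ : Fintype V) (G : SimpleGraph V) (pos : V → ℂ)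
    (arc : Sym2 V → Set ℂ) (lo hi : Sym2 V → ℝ),
    CMonotone G 0 pos arc lo hi ∧ TopGraph G 0 pos arc ∧
    (∀ e ∈ G.edgeSet, ∀ f ∈ G.edgeSet, e ≠ f → (arc e ∩ arc f).ncard ≤ 2) ∧
    Fintype.card V = 2 ^ (K + 2) ∧ G.edgeSet.ncard = (K + 1) * 2 ^ K ∧
    ∀ T : Finset (Sym2 V), (T : Set (Sym2 V)) ⊆ G.edgeSet → T.card = 3 →
      ∃ e ∈ T, ∃ f ∈ T, e ≠ f ∧ ¬ Disjoint (arc e) (arc f) := by
  have hne : ∀ {a b c d : Fin (nn K)}, (s(Sum.inl a, Sum.inr b) : Sym2 (Vt K)) ≠
      s(Sum.inl c, Sum.inr d) → ((a : ℕ), (b : ℕ)) ≠ ((c : ℕ), (d : ℕ)) := by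
    intro a b c d hef hh
    rw [Prod.mk.injEq] at hh
    exact hef (by rw [Fin.ext hh.1, Fin.ext hh.2])
  refine ⟨Vt K, inferInstance, Gr K, vp K, fun e => Arc K (pr e),
    fun e => ang K (2 * (pr e).2), fun e => ang K (2 * (pr e).1 + 1 + per K), cmon K,
    ⟨vp_inj K, fun e he w hw => avoid he w hw, ?_, ?_, ?_⟩, ?_, ?_, card_edges K, ?_⟩
  · intro e he f hf hef
    obtain ⟨a, b, rfl, h⟩ := mem_edge.1 he
    obtain ⟨c, d, rfl, h'⟩ := mem_edge.1 hf
    exact finite_inter h h' (hne hef)
  · intro e he f hf g hg hef hfg heg z hz hz' hz''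
    obtain ⟨a, b, rfl, h⟩ := mem_edge.1 he
    obtain ⟨c, d, rfl, h'⟩ := mem_edge.1 hf
    obtain ⟨p, q, rfl, h''⟩ := mem_edge.1 hg
    exact no_triple_point h h' h'' (hne hef) (hne hfg) (hne heg) hz hz' hz''
  · intro e he f hf hef z hz hz'
    obtain ⟨a, b, rfl, h⟩ := mem_edge.1 he
    obtain ⟨c, d, rfl, h'⟩ := mem_edge.1 hf
    exact proper_cross h h' (hne hef) hz hz'
  · intro e he f hf hef
    obtain ⟨a, b, rfl, h⟩ := mem_edge.1 he
    obtain ⟨c, d, rfl, h'⟩ := mem_edge.1 hf
    exact inter_two h h' (hne hef)
  · rw [Fintype.card_sum, Fintype.card_fin, nn]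
    ring
  · intro T hT hcard
    obtain ⟨e, f, g, hef, heg, hfg, rfl⟩ := Finset.card_eq_three.1 hcard
    by_contra hcon
    push Not at hcon
    have hmem : ∀ x ∈ [e, f, g], x ∈ ({e, f, g} : Finset (Sym2 (Vt K))) := by
      intro x hx
      simpa using hx
    refine three (hT (by simp)) (hT (by simp)) (hT (by simp)) ?_ hef hfg heg
    intro x hx y hy hxy
    have hx' := hmem x hx
    have hy' := hmem y hy
    have hd := hcon x hx' y hy' hxy
    refine ⟨?_, fun hc => hc.meet hd⟩
    rintro ⟨w, hw1, hw2⟩
    exact Set.disjoint_left.1 hd (end_mem (hT hx') hw1) (end_mem (hT hy') hw2)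

end Pool.Agent.Results.MP_5dd651_co.LogSharp
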