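import Pool.Agent.Hhelper93.KTwo.Final

/-!
# A drawing of the complete bipartite graph in which independent edges cross once or twice

Angles are measured in units, a full turn has `2 n + 2` units; the height is the logarithm of the
distance from the origin, `K` is the height of a band and `M` is very large.  The vertex `i` of the
first class has angle `0` and height `i K`, the vertex `j` of the second class has angle `2 j + 2`
and a large height.  The edge `(i, j)` starts in `i` with the strand `i K - s (2 j + 1 - s)`,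
`0 ≤ s ≤ 2 j + 1`, turns back and ends with the strand
`i K + (2 j + 1 - s) + (M - i K) max (0, 2 j - 2 n + 1 - s)`, `2 j - 2 n ≤ s ≤ 2 j + 1`, which runs
around the origin nearly once and is steep at its end.  The common points of `(i, j)` and
`(i', j')`, `i < i'`, lie on the steep part of `(i, j)`: one on each strand of `(i', j')` if
`j < j'`, one on the second strand if `j' < j`, and the common end if `j = j'`.
-/

set_option autoImplicit false

namespace Pool.Agent.Results.MP_5dd651_co.TwoCommonPoints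

open Pool.Agent.CLow3 (TopGraph)
open Pool.Agent.KBip (JArc)
open Pool.Agent.KTwo

theorem result (n : ℕ) : ∃ (pos : Fin n ⊕ Fin n → ℂ) (arc : Sym2 (Fin n ⊕ Fin n) → Set ℂ),
    TopGraph (completeBipartiteGraph (Fin n) (Fin n)) 0 pos arc ∧
    (∀ e ∈ (completeBipartiteGraph (Fin n) (Fin n)).edgeSet,
      ∃ u v, e = s(u, v) ∧ JArc (arc e) (pos u) (pos v)) ∧
    (∀ e ∈ (completeBipartiteGraph (Fin n) (Fin n)).edgeSet,
      ∀ f ∈ (completeBipartiteGraph (Fin n) (Fin n)).edgeSet, e ≠ f →
      (∀ w, w ∈ e → w ∈ f → arc e ∩ arc f ⊆ {pos w}) ∧ (arc e ∩ arc f).ncard ≤ 2 ∧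
      (arc e ∩ arc f).Nonempty) := by
  refine ⟨vpos n, earc n, ⟨vpos_inj n, ?_, ?_, ?_, ?_⟩, ?_, ?_⟩
  · intro e he w hw
    obtain ⟨a, b, rfl⟩ := mem_edge.1 he
    rw [earc_mk] at hw
    rcases w with x | y
    · have := avoid_start a.2 b.2 x.2 hw
      rw [Fin.ext this]
      exact Sym2.mem_mk_left _ _
    · have := avoid_end a.2 b.2 y.2 hw
      rw [Fin.ext this]
      exact Sym2.mem_mk_right _ _
  · intro e he f hf hef
    obtain ⟨a, b, rfl⟩ := mem_edge.1 he
    obtain ⟨c, d, rfl⟩ := mem_edge.1 hf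
    obtain ⟨z, z', h, -⟩ := inter a b c d (not_both hef)
    exact (Set.toFinite {z, z'}).subset h
  · intro e he f hf g hg hef hfg heg z hz hz' hz''
    obtain ⟨a, b, rfl⟩ := mem_edge.1 he
    obtain ⟨c, d, rfl⟩ := mem_edge.1 hf
    obtain ⟨p, q, rfl⟩ := mem_edge.1 hg
    exact three a b c d p q (not_both hef) (not_both hfg) (not_both heg) hz hz' hz''
  · intro e he f hf hef z hz hz'
    obtain ⟨a, b, rfl⟩ := mem_edge.1 he
    obtain ⟨c, d, rfl⟩ := mem_edge.1 hf
    obtain ⟨z₁, z₂, h1, -, h2⟩ := inter a b c d (not_both hef)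
    have h3 := h1 ⟨hz, hz'⟩
    rcases h2 with ⟨-, h4, h5⟩ | ⟨h4, h5⟩
    · left
      rcases h3 with h3 | h3
      · rw [h3]; exact h5
      · rw [h3, ← h4]; exact h5
    · right
      rcases h3 with h3 | h3
      · rw [h3]; exact h4
      · rw [h3]; exact h5
  · intro e he
    obtain ⟨a, b, rfl⟩ := mem_edge.1 he
    exact ⟨Sum.inl a, Sum.inr b, rfl, jarc b.2⟩
  · intro e he f hf hef
    obtain ⟨a, b, rfl⟩ := mem_edge.1 he
    obtain ⟨c, d, rfl⟩ := mem_edge.1 hf
    obtain ⟨z, z', h1, h2, -⟩ := inter a b c d (not_both hef)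
    refine ⟨fun w hw hw' => adj a b c d (not_both hef) w hw hw', ?_, ⟨z, h2⟩⟩
    have h3 := Set.ncard_le_ncard h1 (Set.toFinite _)
    have h4 : ({z, z'} : Set ℂ).ncard ≤ 2 := Set.ncard_insert_le z {z'} |>.trans (by simp)
    exact h3.trans h4

end Pool.Agent.Results.MP_5dd651_co.TwoCommonPoints
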